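import Pool.Agent.Helper28_TP.StS

/-!
# SUCC: a successful attempt leads to a valid state
-/

set_option autoImplicit false

namespace Pool.Agent.TP.H97

open Pool.Agent.TP

theorem lyr_pos (z : ℤ × ℤ) (i : ℕ) : lyr z i ≠ 0 := by
  unfold lyr; omega

theorem lyr_eq {y z : ℤ × ℤ} {i j : ℕ} (hi : i < 16) (hj : j < 16) (h : lyr y i = lyr z j) :
    y.1 % 3 = z.1 % 3 ∧ y.2 % 3 = z.2 % 3 := by
  unfold lyr at h
  have h1 : 0 ≤ y.1 % 3 := Int.emod_nonneg _ (by norm_num)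
  have h2 : y.1 % 3 < 3 := Int.emod_lt_of_pos _ (by norm_num)
  have h3 : 0 ≤ y.2 % 3 := Int.emod_nonneg _ (by norm_num)
  have h4 : y.2 % 3 < 3 := Int.emod_lt_of_pos _ (by norm_num)
  have h5 : 0 ≤ z.1 % 3 := Int.emod_nonneg _ (by norm_num)
  have h6 : z.1 % 3 < 3 := Int.emod_lt_of_pos _ (by norm_num)
  have h7 : 0 ≤ z.2 % 3 := Int.emod_nonneg _ (by norm_num)
  have h8 : z.2 % 3 < 3 := Int.emod_lt_of_pos _ (by norm_num)
  obtain ⟨A, hA⟩ : ∃ A : ℕ, (A : ℤ) = y.1 % 3 := ⟨(y.1 % 3).toNat, by omega⟩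
  obtain ⟨B, hB⟩ : ∃ A : ℕ, (A : ℤ) = y.2 % 3 := ⟨(y.2 % 3).toNat, by omega⟩
  obtain ⟨A', hA'⟩ : ∃ A : ℕ, (A : ℤ) = z.1 % 3 := ⟨(z.1 % 3).toNat, by omega⟩
  obtain ⟨B', hB'⟩ : ∃ A : ℕ, (A : ℤ) = z.2 % 3 := ⟨(z.2 % 3).toNat, by omega⟩
  rw [← hA, ← hB, ← hA', ← hB'] at h ⊢
  simp only [Int.toNat_natCast] at h
  omega

theorem edg_near {k : ℕ} {M n : ℤ} (_hM : 0 ≤ M) {z : ℤ × ℤ} {a : Bool} {g : ℤ} {x : Pt k}
    (hg : g = 1 ∨ g = -1) (h : Edg M n z a g x) : nearB (10 * M) (nbr z a g) (14 * M) x := by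
  obtain ⟨h1, h2, h3, -, -⟩ := h
  rw [abs_le] at h3
  unfold nearB
  rw [abs_le, abs_le]
  cases a <;> rcases hg with rfl | rfl <;>
    simp [pc, lc, cen, axi, nbr] at h1 h2 h3 ⊢ <;>
    refine ⟨⟨?_, ?_⟩, ?_, ?_⟩ <;> nlinarith

theorem succ (geo : GeoStmt) : SuccStmt := by
  intro k N ρ p ε m n hN hmn Reg C F X s s' z a g hV hz hg hzR hzC hzF hP hH hT
  have hM : (0 : ℤ) ≤ Ms m n := by unfold Ms; positivity
  have hne : ∀ y ∈ Reg, y ∉ C → y ≠ z := by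
    intro y hy hyC h
    subst h
    rcases hz with h | h
    · exact hyC h
    · exact h hy
  have G := geo k m n hmn z a g
  have hcov := hP.cov
  refine ⟨hP.ok, hP.rc, ?_, ?_, ?_, ?_, ?_, ?_, ?_, hV.xr, ?_⟩
  · intro y hy
    rcases Finset.mem_insert.1 hy with rfl | hy
    · exact hH
    · obtain ⟨x, hx, hx'⟩ := hV.hit y hy
      exact ⟨x, hP.sub hx, hx'⟩
  · intro y hy hyC hyF x hx
    rw [Finset.mem_insert, not_or] at hyC
    rcases hcov x hx with h | h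
    · exact hV.z4 y hy hyC.2 hyF x h
    · exact (G x hg h).1 y (hne y hy hyC.2) hyC.1
  · intro y hy hyC hyF v hv i hi
    rw [Finset.mem_insert, not_or] at hyC
    rw [← hV.lays y hy hyC.2 hyF v hv i hi]
    by_contra h
    obtain ⟨hE, h | ⟨i', hi', h⟩⟩ := hP.keep v _ h
    · exact lyr_pos _ _ h
    · obtain ⟨e1, e2⟩ := lyr_eq hi hi' h
      exact (G v hg hE).2.2.2.1 y hyC.1 e1 e2 hv
  · intro y hy hyC hyF a' g' hg' hn hnC hnF x hx
    rw [Finset.mem_insert, not_or] at hyC hnC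
    rcases hcov x hx with h | h
    · exact hV.mid y hy hyC.2 hyF a' g' hg' hn hnC.2 hnF x h
    · exact (G x hg h).2.2.1 y a' g' hg' (hne y hy hyC.2) hyC.1 (hne _ hn hnC.2) hnC.1
  · intro y hy a' g' hg' hn hnC hnF
    rw [Finset.mem_insert, not_or] at hnC
    rcases Finset.mem_insert.1 hy with rfl | hy
    · exact hT a' g' hg' hn hnC.2 hnF (hne _ hn hnC.2)
    · obtain ⟨b, b1, b2, b3, b4, b5, b6⟩ := hV.tube y hy a' g' hg' hn hnC.2 hnF
      refine ⟨b, fun x hx => hP.sub (b1 hx), b2, b3, b4, b5, ?_⟩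
      intro x hx
      rcases hcov x hx with h | h
      · exact b6 x h
      · rintro ⟨q1, -, q3, q4⟩
        refine (G x hg h).2.1 y a' g' hg' ?_ (hne _ hn hnC.2) hnC.1 ?_ ⟨q1, q3, q4⟩
        · intro e
          obtain ⟨e1, e2⟩ := Prod.mk.inj e
          obtain ⟨e3, e4⟩ := Prod.mk.inj e2
          exact hnC.1 (by rw [e1, e3, e4])
        · rintro rfl
          exact hzC hy
  · intro v j hvj
    by_cases h : s'.q (v, j) = s.q (v, j)
    · rw [h] at hvj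
      rcases hV.loc v j hvj with h' | ⟨y, hy, h'⟩
      · exact Or.inl h'
      · refine Or.inr ⟨y, ?_, h'⟩
        rw [Finset.insert_union]
        exact Finset.mem_insert_of_mem hy
    · have hE := (hP.keep v j h).1
      refine Or.inr ⟨nbr z a g, ?_, (G v hg hE).2.2.2.2⟩
      rw [Finset.insert_union]
      exact Finset.mem_insert_self _ _
  · intro x hx
    rcases hP.covR x hx with h | h
    · obtain ⟨⟨y, hy, h1⟩, h2⟩ := hV.inV x h
      refine ⟨⟨y, ?_, h1⟩, h2⟩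
      rw [Finset.insert_union]
      exact Finset.mem_insert_of_mem hy
    · refine ⟨⟨nbr z a g, ?_, edg_near hM hg h⟩, h.2.2.2.2⟩
      rw [Finset.insert_union]
      exact Finset.mem_insert_self _ _
  · intro v hv
    rcases hP.adj v hv with h | h
    · rcases hV.adj v h with h' | ⟨u, hu, h'⟩
      · exact Or.inl h'
      · exact Or.inr ⟨u, hP.sub hu, h'⟩
    · exact Or.inr h

end Pool.Agent.TP.H97
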